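import Pool.Agent.Helper97.TN.St2

/-!
# Project BC+, module B2: primes of degree one and Frobenius elements
-/

set_option autoImplicit false

namespace Pool.Agent.Helper77.TN

open NumberField IsDedekindDomain Polynomial
open Pool.Agent.Helper97.TN Pool.Agent.Helper95.TT Pool.Agent.Helper96.BC
open scoped Classical

theorem b2_elt (k K : Type) [Field k] [NumberField k] [Field K] [NumberField K] [Algebra k K] :
    ∃ θ : 𝓞 K, IntermediateField.adjoin k {(θ : K)} = ⊤ := by
  obtain ⟨α, hα⟩ := Field.exists_primitive_element k K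
  have hz : IsAlgebraic ℤ α :=
    (IsFractionRing.isAlgebraic_iff ℤ ℚ K).2 (Algebra.IsAlgebraic.isAlgebraic _)
  obtain ⟨y, hy0, hy⟩ := hz.exists_integral_multiple
  refine ⟨⟨y • α, hy⟩, ?_⟩
  have hy' : (y : K) ≠ 0 := by exact_mod_cast hy0
  rw [eq_top_iff, ← hα, IntermediateField.adjoin_simple_le_iff]
  show α ∈ IntermediateField.adjoin k {(y • α : K)}
  have h1 : (y • α : K) ∈ IntermediateField.adjoin k {(y • α : K)} :=
    IntermediateField.mem_adjoin_simple_self k _
  have h2 : ((y : K))⁻¹ ∈ IntermediateField.adjoin k {(y • α : K)} :=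
    inv_mem (intCast_mem _ y)
  have h3 := mul_mem h2 h1
  have h4 : (y : K)⁻¹ * (y • α) = α := by rw [zsmul_eq_mul, inv_mul_cancel_left₀ hy']
  rwa [h4] at h3

/-- **B2** -/
theorem hB2 (hP4 : StP4) (hB1 : StB1) : StB2 := by
  intro k K L _ _ _ _ _ _ _ _ _ _ _
  obtain ⟨θ₀, hθ₀⟩ := b2_elt k K
  obtain ⟨R₁, hR₁, h1⟩ := hB1 k K θ₀ hθ₀
  have hfin : Finite (K →ₐ[k] L) := inferInstance
  let : Fintype (K →ₐ[k] L) := Fintype.ofFinite _
  let act : MulAction (L ≃ₐ[k] L) (K →ₐ[k] L) :=
    { smul := fun g x => g.toAlgHom.comp x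
      one_smul := fun x => AlgHom.ext (fun _ => rfl)
      mul_smul := fun g h x => AlgHom.ext (fun _ => rfl) }
  have hsm : ∀ (g : L ≃ₐ[k] L) (x : K →ₐ[k] L) (z : K), (g • x) z = g (x z) := fun _ _ _ => rfl
  have hext : ∀ x y : K →ₐ[k] L, x (θ₀ : K) = y (θ₀ : K) → x = y := by
    intro x y h
    have h2 : ∀ z ∈ IntermediateField.adjoin k {(θ₀ : K)}, x z = y z := by
      intro z hz
      induction hz using IntermediateField.adjoin_induction with
      | mem z hz => rw [Set.mem_singleton_iff] at hz; rw [hz, h]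
      | algebraMap z => rw [AlgHom.commutes, AlgHom.commutes]
      | add a b _ _ ha hb => rw [map_add, map_add, ha, hb]
      | inv a _ ha => rw [map_inv₀, map_inv₀, ha]
      | mul a b _ _ ha hb => rw [map_mul, map_mul, ha, hb]
    apply AlgHom.ext
    intro z
    apply h2
    rw [hθ₀]
    exact IntermediateField.mem_top
  let θ : (K →ₐ[k] L) → 𝓞 L := fun x => ⟨x (θ₀ : K), θ₀.2.map (x.restrictScalars ℤ)⟩
  have hθ : ∀ x, (θ x : L) = x (θ₀ : K) := fun _ => rfl
  have hinj : Function.Injective θ := by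
    intro x y h
    apply hext
    rw [← hθ, ← hθ, h]
  have hact : ∀ (g : L ≃ₐ[k] L) (x : K →ₐ[k] L), g (θ x : L) = (θ (g • x) : L) := fun _ _ => rfl
  have hint : IsIntegral (𝓞 k) θ₀ := Algebra.IsIntegral.isIntegral θ₀
  have hmp : minpoly k (θ₀ : K) = (minpoly (𝓞 k) θ₀).map (algebraMap (𝓞 k) k) :=
    minpoly.isIntegrallyClosed_eq_field_fractions k K hint
  have hprod : (minpoly (𝓞 k) θ₀).map (algebraMap (𝓞 k) (𝓞 L)) = ∏ x, (X - C (θ x)) := by
    apply Polynomial.map_injective (algebraMap (𝓞 L) L) (FaithfulSMul.algebraMap_injective _ _)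
    have e1 : ((minpoly (𝓞 k) θ₀).map (algebraMap (𝓞 k) (𝓞 L))).map (algebraMap (𝓞 L) L) =
        (minpoly k (θ₀ : K)).map (algebraMap k L) := by
      rw [hmp, Polynomial.map_map, Polynomial.map_map, ← IsScalarTower.algebraMap_eq,
        ← IsScalarTower.algebraMap_eq]
    rw [e1, Polynomial.map_prod]
    have e2 : ∀ x : K →ₐ[k] L, (X - C (θ x)).map (algebraMap (𝓞 L) L) = X - C (θ x : L) := by
      intro x
      rw [Polynomial.map_sub, map_X, map_C]
    simp only [e2]
    have hint' : IsIntegral k (θ₀ : K) := Algebra.IsIntegral.isIntegral _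
    let ι : K →ₐ[k] L := IsScalarTower.toAlgHom k K L
    have hιm : minpoly k (ι (θ₀ : K)) = minpoly k (θ₀ : K) :=
      minpoly.algHom_eq ι ι.toRingHom.injective (θ₀ : K)
    have hsp : ((minpoly k (θ₀ : K)).map (algebraMap k L)).Splits := by
      rw [← hιm]
      exact Normal.splits (inferInstance : Normal k L) (ι (θ₀ : K))
    have hmon : ((minpoly k (θ₀ : K)).map (algebraMap k L)).Monic := (minpoly.monic hint').map _
    have hsep : (minpoly k (θ₀ : K)).Separable := by
      rw [← hιm]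
      exact IsGalois.separable k (ι (θ₀ : K))
    have hnodup : ((minpoly k (θ₀ : K)).map (algebraMap k L)).roots.Nodup :=
      Polynomial.nodup_roots hsep.map
    have hroots : ((minpoly k (θ₀ : K)).map (algebraMap k L)).roots =
        (Finset.univ.image (fun x : K →ₐ[k] L => (θ x : L))).val := by
      rw [Multiset.Nodup.ext hnodup (Finset.nodup _)]
      intro a
      rw [Polynomial.mem_roots hmon.ne_zero, Finset.mem_val, Finset.mem_image, IsRoot.def,
        eval_map_algebraMap]
      constructor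
      · intro ha
        have h1 : minpoly k (θ₀ : K) = minpoly k a :=
          minpoly.eq_of_irreducible_of_monic (minpoly.irreducible hint') ha (minpoly.monic hint')
        rw [← hιm] at h1
        obtain ⟨g, hg⟩ := (Normal.minpoly_eq_iff_mem_orbit L).1 h1.symm
        exact ⟨g • ι, Finset.mem_univ _, hg⟩
      · rintro ⟨x, -, rfl⟩
        show (aeval (x (θ₀ : K))) (minpoly k (θ₀ : K)) = 0
        rw [aeval_algHom_apply, minpoly.aeval, map_zero]
    rw [hsp.eq_prod_roots_of_monic hmon, hroots]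
    show (Multiset.map (fun a => X - C a)
      (Finset.univ.image (fun x : K →ₐ[k] L => (θ x : L))).val).prod = _
    rw [Finset.prod_map_val, Finset.prod_image]
    intro x _ y _ h
    exact hinj (RingOfIntegers.ext h)
  obtain ⟨R₂, hR₂, h2⟩ := hP4 k L (K →ₐ[k] L) θ (minpoly (𝓞 k) θ₀) hinj hact hprod
  refine ⟨R₁ ∪ R₂, hR₁.union hR₂, ?_⟩
  intro v hv g hg
  rw [Set.mem_union, not_or] at hv
  rw [h1 v hv.1, h2 v hv.2 g hg]
  unfold fx fxK
  congr 1
  apply Nat.card_congr
  refine Equiv.subtypeEquivRight ?_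
  intro x
  constructor
  · intro h z
    rw [← hsm, h]
  · intro h
    exact AlgHom.ext h

end Pool.Agent.Helper77.TN
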