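import Pool.Agent.Helper97.TN.St2
import Pool.Agent.Helper27.TN.M_P5

/-!
# Project BC+, module B4: 2-transitive groups
-/

set_option autoImplicit false

namespace Pool.Agent.Helper77.TN

open Pool.Agent.Helper97.TN Pool.Agent.Helper95.TT Pool.Agent.Helper96.BC
open scoped Classical

theorem fx_prod {G : Type} [Group G] (X : Type) [Fintype X] [MulAction G X] (g : G) :
    fx (X × X) g = fx X g ^ 2 := by
  unfold fx
  rw [sq, ← Nat.cast_mul, ← Nat.card_prod]
  congr 1
  refine Nat.card_congr ⟨fun x => (⟨x.1.1, congrArg Prod.fst x.2⟩, ⟨x.1.2, congrArg Prod.snd x.2⟩),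
    fun x => ⟨(x.1.1, x.2.1), Prod.ext x.1.2 x.2.2⟩, ?_, ?_⟩
  · rintro ⟨⟨a, b⟩, h⟩
    rfl
  · rintro ⟨⟨a, h⟩, ⟨b, h'⟩⟩
    rfl

theorem trans_of_two {G : Type} [Group G] {X : Type} [Fintype X] [MulAction G X]
    (hX : 2 ≤ Nat.card X)
    (h2 : ∀ x y x' y' : X, x ≠ y → x' ≠ y' → ∃ g : G, g • x = x' ∧ g • y = y') :
    ∀ x x' : X, ∃ g : G, g • x = x' := by
  intro x x'
  have hc : 1 < Nat.card X := hX
  have : Nontrivial X := by
    rw [← Finite.one_lt_card_iff_nontrivial]
    exact hc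
  obtain ⟨y, hy⟩ := exists_ne x
  obtain ⟨y', hy'⟩ := exists_ne x'
  obtain ⟨g, h, _⟩ := h2 x y x' y' hy.symm hy'.symm
  exact ⟨g, h⟩

theorem card_one {G : Type} [Group G] {X : Type} [Fintype X] [MulAction G X]
    (hX : 2 ≤ Nat.card X)
    (h2 : ∀ x y x' y' : X, x ≠ y → x' ≠ y' → ∃ g : G, g • x = x' ∧ g • y = y') :
    Fintype.card (MulAction.orbitRel.Quotient G X) = 1 := by
  rw [Fintype.card_eq_one_iff]
  have hne : Nonempty X := by
    by_contra h
    rw [not_nonempty_iff] at h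
    rw [Nat.card_of_isEmpty] at hX
    omega
  obtain ⟨x₀⟩ := hne
  refine ⟨Quotient.mk _ x₀, ?_⟩
  intro O
  induction O using Quotient.inductionOn with
  | h y =>
    apply Quotient.sound
    obtain ⟨g, hg⟩ := trans_of_two hX h2 x₀ y
    exact ⟨g, hg⟩

theorem card_two {G : Type} [Group G] {X : Type} [Fintype X] [MulAction G X]
    (hX : 2 ≤ Nat.card X)
    (h2 : ∀ x y x' y' : X, x ≠ y → x' ≠ y' → ∃ g : G, g • x = x' ∧ g • y = y') :
    Fintype.card (MulAction.orbitRel.Quotient G (X × X)) = 2 := by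
  have hc : 1 < Nat.card X := hX
  have : Nontrivial X := by
    rw [← Finite.one_lt_card_iff_nontrivial]
    exact hc
  obtain ⟨a, b, hab⟩ := exists_pair_ne X
  let F : MulAction.orbitRel.Quotient G (X × X) → Bool :=
    Quotient.lift (s := MulAction.orbitRel G (X × X)) (fun p : X × X => decide (p.1 = p.2)) (by
      rintro ⟨x, y⟩ ⟨x', y'⟩ h
      obtain ⟨g, hg⟩ := h
      have h1 : g • x' = x := congrArg Prod.fst hg
      have h3 : g • y' = y := congrArg Prod.snd hg
      simp only [decide_eq_decide]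
      rw [← h1, ← h3]
      exact ⟨fun h => MulAction.injective g h, fun h => by rw [h]⟩)
  have hF : Function.Bijective F := by
    constructor
    · intro O O'
      induction O using Quotient.inductionOn with
      | h p =>
        induction O' using Quotient.inductionOn with
        | h p' =>
          intro h
          have h' : (p.1 = p.2) ↔ (p'.1 = p'.2) := by
            have : decide (p.1 = p.2) = decide (p'.1 = p'.2) := h
            exact decide_eq_decide.1 this
          apply Quotient.sound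
          by_cases he : p.1 = p.2
          · have he' := h'.1 he
            obtain ⟨g, hg⟩ := trans_of_two hX h2 p'.1 p.1
            refine ⟨g, Prod.ext hg ?_⟩
            show g • p'.2 = p.2
            rw [← he', hg, he]
          · have he' : p'.1 ≠ p'.2 := fun h => he (h'.2 h)
            obtain ⟨g, hg, hg'⟩ := h2 p'.1 p'.2 p.1 p.2 he' he
            exact ⟨g, Prod.ext hg hg'⟩
    · intro c
      cases c with
      | true =>
        exact ⟨Quotient.mk _ (a, a), decide_eq_true rfl⟩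
      | false =>
        exact ⟨Quotient.mk _ (a, b), decide_eq_false hab⟩
  rw [Fintype.card_of_bijective hF]
  rfl

theorem part_one {G : Type} [Group G] [Finite G] {X Y : Type} [Fintype X] [MulAction G X]
    [Fintype Y] [MulAction G Y] (hX : 2 ≤ Nat.card X)
    (h2 : ∀ x y x' y' : X, x ≠ y → x' ≠ y' → ∃ g : G, g • x = x' ∧ g • y = y')
    (hY2 : ∀ x y x' y' : Y, x ≠ y → x' ≠ y' → ∃ g : G, g • x = x' ∧ g • y = y')
    (g₀ : G) (h0 : ∀ x : X, g₀ • x = x) (y₀ : Y) (h1 : g₀ • y₀ ≠ y₀)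
    (x x' : X) (y y' : Y) : ∃ g : G, g • x = x' ∧ g • y = y' := by
  obtain ⟨g, hg⟩ := trans_of_two hX h2 x x'
  by_cases hy : g • y = y'
  · exact ⟨g, hg, hy⟩
  · obtain ⟨h, hh1, hh2⟩ := hY2 y₀ (g₀ • y₀) (g • y) y' h1.symm hy
    refine ⟨h * g₀ * h⁻¹ * g, ?_, ?_⟩
    · rw [mul_smul, hg, mul_smul, mul_smul, h0, smul_inv_smul]
    · rw [mul_smul, mul_smul, mul_smul, ← hh1, inv_smul_smul, hh2]

theorem hB4 : StB4 := by
  intro G _ _ X _ _ hX h2
  refine ⟨?_, ?_⟩
  · have : Fintype G := Fintype.ofFinite G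
    have e1 := Pool.Agent.Helper27.TNP5.avg_fx (G := G) X
    have e2 := Pool.Agent.Helper27.TNP5.avg_fx (G := G) (X × X)
    rw [card_one hX h2] at e1
    rw [card_two hX h2] at e2
    have hG : (Nat.card G : ℝ) ≠ 0 := by
      have := Nat.card_pos (α := G)
      positivity
    unfold avg at e1 e2 ⊢
    rw [finsum_eq_sum_of_fintype] at e1 e2 ⊢
    rw [div_eq_iff hG] at e1 e2 ⊢
    simp only [fx_prod] at e2
    have e3 : ∑ g : G, (fx X g - 1) ^ 2 =
        ∑ g : G, fx X g ^ 2 - 2 * ∑ g : G, fx X g + (Nat.card G : ℝ) := by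
      have : (Nat.card G : ℝ) = ∑ g : G, (1 : ℝ) := by simp
      rw [this, Finset.mul_sum, ← Finset.sum_sub_distrib, ← Finset.sum_add_distrib]
      apply Finset.sum_congr rfl
      intro g _
      ring
    rw [e3, e1, e2]
    push_cast
    ring
  · intro Y _ _ hY hY2 hdiff x x' y y'
    obtain ⟨g₀, hg₀⟩ := hdiff
    by_cases hA : ∀ x : X, g₀ • x = x
    · have hB : ¬ ∀ y : Y, g₀ • y = y := fun h => hg₀ ⟨fun _ => h, fun _ => hA⟩
      push Not at hB
      obtain ⟨y₀, hy₀⟩ := hB
      exact part_one hX h2 hY2 g₀ hA y₀ hy₀ x x' y y'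
    · have hB : ∀ y : Y, g₀ • y = y := by
        by_contra hB
        exact hg₀ ⟨fun h => absurd h hA, fun h => absurd h hB⟩
      push Not at hA
      obtain ⟨x₀, hx₀⟩ := hA
      obtain ⟨g, hg1, hg2⟩ := part_one hY hY2 h2 g₀ hB x₀ hx₀ y y' x x'
      exact ⟨g, hg2, hg1⟩

end Pool.Agent.Helper77.TN
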